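import Pool.Agent.H58.Mult.Power

/-! # Non-trivial multipliers for order `m p ^ b`, `m` fixed (MP_3e22f2_co) -/

set_option autoImplicit false

namespace Pool.Agent.H58.Mult

open Finset

variable {v : ℕ} [NeZero v] {D : Finset (ZMod v)} {l : ℤ}

omit [NeZero v] in
theorem unit_mul_inj (t : (ZMod v)ˣ) (g : ZMod v) : Function.Injective fun x : ZMod v => (t : ZMod v) * x - g := by
  intro x y hxy
  have h1 : (t : ZMod v) * x = t * y := sub_left_injective hxy
  have := congrArg (fun z => ((t⁻¹ : (ZMod v)ˣ) : ZMod v) * z) h1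
  simpa [← mul_assoc] using this

theorem card_sq (hD : IsDS D l) : (D.card : ℤ) ^ 2 = D.card - l + l * v := by
  have h1 := sum_E hD 1
  have h2 : ∑ g, cnt D 1 g = (D.card : ℤ) ^ 2 := by
    unfold cnt
    rw [Finset.sum_comm]
    have : ∀ x ∈ D, ∑ g : ZMod v, (∑ y ∈ D, if 1 * x - y = g then (1 : ℤ) else 0) = D.card := by
      intro x _
      rw [Finset.sum_comm]
      simp
    rw [Finset.sum_congr rfl this, Finset.sum_const, nsmul_eq_mul, sq]
  have h3 : ∑ g, E D l 1 g = ∑ g, cnt D 1 g - (v : ℤ) * l := by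
    unfold E
    rw [Finset.sum_sub_distrib, Finset.sum_const, Finset.card_univ, ZMod.card, nsmul_eq_mul]
  rw [h3, h2] at h1
  linarith

theorem cnt_lower (t : (ZMod v)ˣ) (g : ZMod v) :
    2 * (D.card : ℤ) - v ≤ cnt D t g := by
  classical
  rw [cnt_eq]
  have h1 : (D.image fun x => (t : ZMod v) * x - g).card = D.card :=
    Finset.card_image_of_injective _ (unit_mul_inj t g)
  have h2 : (D ∩ D.image fun x => (t : ZMod v) * x - g).card ≤
      (D.filter fun x => (t : ZMod v) * x - g ∈ D).card := by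
    have h3 : (D ∩ D.image fun x => (t : ZMod v) * x - g) ⊆
        (D.filter fun x => (t : ZMod v) * x - g ∈ D).image fun x => (t : ZMod v) * x - g := by
      intro y hy
      rw [Finset.mem_inter] at hy
      obtain ⟨x, hx, rfl⟩ := Finset.mem_image.1 hy.2
      exact Finset.mem_image.2 ⟨x, Finset.mem_filter.2 ⟨hx, hy.1⟩, rfl⟩
    exact (Finset.card_le_card h3).trans Finset.card_image_le
  have h4 := Finset.card_union_add_card_inter D (D.image fun x => (t : ZMod v) * x - g)
  have h5 : (D ∪ D.image fun x => (t : ZMod v) * x - g).card ≤ v := by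
    have := Finset.card_le_univ (D ∪ D.image fun x => (t : ZMod v) * x - g)
    rwa [ZMod.card] at this
  omega

theorem nonneg_of_dvd {q x c : ℤ} (hq : c < q) (hx : -c ≤ x) (hd : q ∣ x) : 0 ≤ x := by
  obtain ⟨y, rfl⟩ := hd
  by_contra hneg
  push Not at hneg
  have hq0 : 0 < q := by
    by_contra h
    push Not at h
    nlinarith
  have hy : y < 0 := by
    by_contra h
    push Not at h
    nlinarith
  nlinarith

/-- Second multiplier theorem for prime powers, in terms of the smaller of `λ` and its complementary value. -/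
theorem mult_of_min (hD : IsDS D l) (hn : 0 < (D.card : ℤ) - l) {p b : ℕ} (hp : p.Prime)
    (hpv : Nat.Coprime p v) (hb : (p : ℤ) ^ b ∣ (D.card : ℤ) - l) (t : (ZMod v)ˣ)
    (ht : (t : ZMod v) = (p : ZMod v))
    (hlt : l < (p : ℤ) ^ b ∨ (v : ℤ) - 2 * D.card + l < (p : ℤ) ^ b) :
    ∃ s : ZMod v, D.image (fun x => (t : ZMod v) * x) = D.image (fun x => x + s) := by
  refine mult_of_pos hD hn t fun g => ?_
  have hd : (p : ℤ) ^ b ∣ E D l t g := by
    have := div_all (n1 := p ^ b) hD (by exact_mod_cast hb) (Nat.Coprime.pow_left b hpv) t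
      (fun r hr hrp => ⟨1, by rw [pow_one, ht, (Nat.prime_dvd_prime_iff_eq hr hp).1
        (hr.dvd_of_dvd_pow hrp)]⟩) g
    exact_mod_cast this
  rcases hlt with h | h
  · refine nonneg_of_dvd h ?_ hd
    have := cnt_nonneg D (t : ZMod v) g
    unfold E
    omega
  · refine nonneg_of_dvd h ?_ hd
    have := cnt_lower (D := D) t g
    unfold E
    omega

/-- The arithmetic of the remaining case. -/
theorem arith {l m' n m q v : ℤ} (hn : n = m * q) (hm : 0 < m) (hq : 0 < q) (hlm : l * m' = n ^ 2 - n)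
    (hv : v = l + 2 * n + m') (hl : 0 < l) (hm' : q ≤ m') (hd : q ∣ l) :
    ∃ c : ℤ, 1 ≤ c ∧ c < m ^ 2 ∧ c * v = q * (c + m) ^ 2 - m := by
  obtain ⟨c, rfl⟩ := hd
  have hc : 0 < c := by
    by_contra h
    push Not at h
    nlinarith
  have h1 : c * m' = m * (n - 1) := by
    have : q * (c * m') = q * (m * (n - 1)) := by
      rw [hn] at hlm ⊢
      linear_combination hlm
    exact mul_left_cancel₀ hq.ne' this
  refine ⟨c, hc, ?_, ?_⟩
  · have h2 : c * q ≤ c * m' := mul_le_mul_of_nonneg_left hm' hc.le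
    rw [h1, hn] at h2
    have h3 : c * q < m ^ 2 * q := by nlinarith
    exact lt_of_mul_lt_mul_right h3 hq.le
  · rw [hv]
    have : c * m' = m * (m * q - 1) := by rw [h1, hn]
    rw [hn]
    linear_combination this

/-- If `c v = q (c + m) ^ 2 - m` with `c` small, no small power of `q` is `1` modulo `v`. -/
theorem pow_ne_one {c m q : ℤ} {w : ℕ} (hm : 0 < m) (hc : 1 ≤ c) (hcm : c < m ^ 2)
    (he : c * w = q * (c + m) ^ 2 - m) {i N : ℕ} (hi : 1 ≤ i) (hiN : i ≤ N)
    (hw : (m ^ 2 + m) ^ (2 * N) ≤ (w : ℤ)) (hone : ((q : ℤ) : ZMod w) ^ i = 1) : False := by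
  have h1 : (q : ZMod w) * ((c + m : ℤ) : ZMod w) ^ 2 = ((m : ℤ) : ZMod w) := by
    have := congrArg (fun z : ℤ => (z : ZMod w)) he
    push_cast at this ⊢
    rw [ZMod.natCast_self, mul_zero] at this
    linear_combination -this
  have h2 : (((c + m) ^ (2 * i) - m ^ i : ℤ) : ZMod w) = 0 := by
    have h3 := congrArg (fun z => z ^ i) h1
    simp only [mul_pow, hone, one_mul] at h3
    push_cast at h3 ⊢
    rw [pow_mul, h3, sub_self]
  rw [ZMod.intCast_zmod_eq_zero_iff_dvd] at h2
  have h4 : m ^ i < (c + m) ^ (2 * i) := by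
    rw [pow_mul]
    refine pow_lt_pow_left₀ ?_ hm.le (by omega)
    nlinarith
  have h5 : (w : ℤ) ≤ (c + m) ^ (2 * i) - m ^ i := Int.le_of_dvd (by omega) h2
  have h6 : (c + m) ^ (2 * i) ≤ (m ^ 2 + m) ^ (2 * i) :=
    pow_le_pow_left₀ (by omega) (by omega) _
  have h7 : (m ^ 2 + m) ^ (2 * i) ≤ (m ^ 2 + m) ^ (2 * N) :=
    pow_le_pow_right₀ (by nlinarith) (by omega)
  have h8 : 0 < m ^ i := pow_pos hm i
  omega

theorem eventually (hD : IsDS D l) {m p b : ℕ} (hp : p.Prime) (h1 : 1 < D.card)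
    (h2 : D.card + 1 < v) (hn : (D.card : ℤ) - l = m * (p ^ b : ℕ))
    (hcop : Nat.Coprime (m * p ^ b) v) (hlarge : (m ^ 2 + m) ^ (2 * bound m) ≤ m * p ^ b) :
    ∃ t : (ZMod v)ˣ, t ≠ 1 ∧ ∃ s : ZMod v,
      D.image (fun x => (t : ZMod v) * x) = D.image (fun x => x + s) := by
  have hv1 : 1 < v := by omega
  have hpos : 0 < m * p ^ b := by
    rcases Nat.eq_zero_or_pos (m * p ^ b) with h | h
    · rw [h, Nat.coprime_zero_left] at hcop
      omega
    · exact h
  have hm : 0 < m := Nat.pos_of_mul_pos_right hpos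
  have hq : 0 < p ^ b := Nat.pos_of_mul_pos_left hpos
  have hn0 : 0 < (D.card : ℤ) - l := by
    rw [hn]
    positivity
  have hsq := card_sq hD
  set k : ℤ := (D.card : ℤ) with hk
  set m' : ℤ := (v : ℤ) - 2 * k + l with hm'
  have hk1 : 1 < k := by rw [hk]; exact_mod_cast h1
  have hkv : k + 1 < v := by rw [hk]; exact_mod_cast h2
  have hlm : l * m' = (k - l) ^ 2 - (k - l) := by
    rw [hm']
    linear_combination -hsq
  have hv : (v : ℤ) = l + 2 * (k - l) + m' := by rw [hm']; ring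
  have hl : 0 < l := by
    by_contra h
    push Not at h
    have : l * (v - 1) = k * (k - 1) := by linear_combination -hsq
    nlinarith
  have hm'0 : 0 < m' := by
    by_contra h
    push Not at h
    have : m' * (v - 1) = (v - k) * (v - k - 1) := by rw [hm']; linear_combination -hsq
    nlinarith
  have hn2 : 2 ≤ k - l := by
    by_contra h
    have h3 : k - l = 1 := by omega
    rw [h3] at hlm
    nlinarith
  have hnv : k - l < v := by omega
  -- the exponent is positive
  have hb : b ≠ 0 := by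
    rintro rfl
    rw [pow_zero, mul_one] at hlarge
    have h3 : m < (m ^ 2 + m) ^ (2 * bound m) := by
      have hb1 : 1 ≤ 2 * bound m := by
        have : 0 < bound m := by unfold bound; positivity
        omega
      calc m < m ^ 2 + m := by nlinarith
        _ = (m ^ 2 + m) ^ 1 := (pow_one _).symm
        _ ≤ (m ^ 2 + m) ^ (2 * bound m) := Nat.pow_le_pow_right (by positivity) hb1
    omega
  have hpn : p ∣ m * p ^ b := (dvd_pow_self p hb).mul_left m
  have hpv : Nat.Coprime p v := Nat.Coprime.coprime_dvd_left hpn hcop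
  by_cases hmin : l < ((p ^ b : ℕ) : ℤ) ∨ m' < ((p ^ b : ℕ) : ℤ)
  · refine ⟨ZMod.unitOfCoprime p hpv, ?_, ?_⟩
    · intro h
      have h3 := congrArg (fun u : (ZMod v)ˣ => (u : ZMod v)) h
      simp only [ZMod.coe_unitOfCoprime, Units.val_one] at h3
      have h4 : ((p : ℕ) : ZMod v) = ((1 : ℕ) : ZMod v) := by rw [h3, Nat.cast_one]
      rw [ZMod.natCast_eq_natCast_iff] at h4
      have h5 : p ≤ m * p ^ b := Nat.le_of_dvd hpos hpn
      have h6 : p < v := by
        have : ((m * p ^ b : ℕ) : ℤ) < v := by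
          push_cast
          push_cast at hn
          rw [← hn]
          exact hnv
        omega
      have h7 := Nat.ModEq.eq_of_lt_of_lt h4 h6 hv1
      exact hp.one_lt.ne' h7
    · refine mult_of_min hD hn0 hp hpv (b := b) ?_ _ (ZMod.coe_unitOfCoprime p hpv) ?_
      · rw [hn]
        push_cast
        exact Dvd.intro_left _ rfl
      · push_cast at hmin
        exact hmin
  · push Not at hmin
    obtain ⟨hql, hqm⟩ := hmin
    have hex : ∃ c : ℤ, 1 ≤ c ∧ c < (m : ℤ) ^ 2 ∧ c * v = ((p ^ b : ℕ) : ℤ) * (c + m) ^ 2 - m := by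
      have hq' : (0 : ℤ) < ((p ^ b : ℕ) : ℤ) := by exact_mod_cast hq
      have hm0 : (0 : ℤ) < (m : ℤ) := by exact_mod_cast hm
      have hdvd : ((p ^ b : ℕ) : ℤ) ∣ l * m' := by
        rw [hlm, hn]
        exact ⟨m * (m * (p ^ b : ℕ) - 1), by ring⟩
      have hpp : Prime (p : ℤ) := Nat.prime_iff_prime_int.1 hp
      have hpdvdn : (p : ℤ) ∣ k - l := by
        rw [hn]
        exact_mod_cast hpn
      have hnotboth : ¬ ((p : ℤ) ∣ l ∧ (p : ℤ) ∣ m') := by
        rintro ⟨ha, hb'⟩
        have : (p : ℤ) ∣ v := by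
          rw [hv]
          exact dvd_add (dvd_add ha (Dvd.dvd.mul_left hpdvdn 2)) hb'
        have h3 : p ∣ v := by exact_mod_cast this
        have h4 := Nat.Coprime.eq_one_of_dvd hpv h3
        exact hp.one_lt.ne' h4
      by_cases hpl : (p : ℤ) ∣ l
      · have hc : IsCoprime ((p ^ b : ℕ) : ℤ) m' := by
          push_cast
          refine IsCoprime.pow_left ?_
          exact (Prime.coprime_iff_not_dvd hpp).2 fun h => hnotboth ⟨hpl, h⟩
        exact arith hn hm0 hq' hlm hv hl hqm (hc.dvd_of_dvd_mul_right hdvd)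
      · have hc : IsCoprime ((p ^ b : ℕ) : ℤ) l := by
          push_cast
          refine IsCoprime.pow_left ?_
          exact (Prime.coprime_iff_not_dvd hpp).2 hpl
        exact arith hn hm0 hq' (by rw [mul_comm]; exact hlm) (by rw [hv]; ring) hm'0 hql
          (hc.dvd_of_dvd_mul_left hdvd)
    obtain ⟨c, hc1, hc2, hc3⟩ := hex
    have hqv : Nat.Coprime (p ^ b) v := Nat.Coprime.pow_left b hpv
    obtain ⟨i, hi1, hi2, s, hs⟩ := power_mult hD hm hq hn hcop (ZMod.unitOfCoprime (p ^ b) hqv)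
      (fun r hr hrp => ⟨b, by
        rw [ZMod.coe_unitOfCoprime, (Nat.prime_dvd_prime_iff_eq hr hp).1 (hr.dvd_of_dvd_pow hrp)]
        push_cast
        rfl⟩)
    refine ⟨ZMod.unitOfCoprime (p ^ b) hqv ^ i, ?_, s, hs⟩
    intro hone
    have h3 := congrArg (fun u : (ZMod v)ˣ => (u : ZMod v)) hone
    simp only [Units.val_pow_eq_pow_val, ZMod.coe_unitOfCoprime, Units.val_one] at h3
    refine pow_ne_one (m := (m : ℤ)) (q := ((p ^ b : ℕ) : ℤ)) (w := v) (by exact_mod_cast hm) hc1 hc2
      hc3 hi1 hi2 ?_ ?_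
    · have h4 : (((m ^ 2 + m) ^ (2 * bound m) : ℕ) : ℤ) ≤ ((m * p ^ b : ℕ) : ℤ) := by
        exact_mod_cast hlarge
      push_cast at h4 hn ⊢
      linarith
    · rw [Int.cast_natCast]
      exact h3

end Pool.Agent.H58.Mult
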