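import Mathlib

/-! # Frobenius fixes all ideals above `p` (MP_3e22f2_co) -/

set_option autoImplicit false

namespace Pool.Agent.H58.Mult

open NumberField

section dedekind

variable {O : Type*} [CommRing O] [IsDedekindDomain O]

/-- If a ring endomorphism maps every prime above `p` into itself then it maps every ideal
containing a power of `p` into itself. -/
theorem stable_of_prime (σ : O →+* O) (p : O) (hp0 : p ≠ 0)
    (hP : ∀ P : Ideal O, P.IsPrime → p ∈ P → ∀ x ∈ P, σ x ∈ P) (b : ℕ) (A : Ideal O)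
    (hA : p ^ b ∈ A) : ∀ x ∈ A, σ x ∈ A := by
  have h0 : p ^ b ∈ (0 : Ideal O) → ∀ x ∈ (0 : Ideal O), σ x ∈ (0 : Ideal O) := by
    intro h
    exact absurd (eq_zero_of_pow_eq_zero (Submodule.mem_bot O |>.1 h)) hp0
  have h1 : ∀ A : Ideal O, IsUnit A → (p ^ b ∈ A → ∀ x ∈ A, σ x ∈ A) := by
    intro A hu _ x _
    rw [Ideal.isUnit_iff] at hu
    rw [hu]
    exact Submodule.mem_top
  have h2 : ∀ A P : Ideal O, A ≠ 0 → Prime P → (p ^ b ∈ A → ∀ x ∈ A, σ x ∈ A) →
      (p ^ b ∈ P * A → ∀ x ∈ P * A, σ x ∈ P * A) := by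
    intro A P _ hPp ih hA
    have hPprime : P.IsPrime := Ideal.isPrime_of_prime hPp
    have h1 : p ^ b ∈ P := Ideal.mul_le_left (I := P) (J := A) hA
    have h2 : p ^ b ∈ A := Ideal.mul_le_right (I := P) (J := A) hA
    have h3 : p ∈ P := hPprime.mem_of_pow_mem b h1
    have h4 : P * A ≤ Ideal.comap σ (P * A) := by
      rw [Ideal.mul_le]
      intro y hy z hz
      rw [Ideal.mem_comap, map_mul]
      exact Ideal.mul_mem_mul (hP P hPprime h3 y hy) (ih h2 z hz)
    exact fun x hx => h4 hx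
  exact UniqueFactorizationMonoid.induction_on_prime
    (P := fun A : Ideal O => p ^ b ∈ A → ∀ x ∈ A, σ x ∈ A) A h0 h1 h2 hA

theorem dvd_twist (σ : O →+* O) (p : O) (hp0 : p ≠ 0)
    (hP : ∀ P : Ideal O, P.IsPrime → p ∈ P → ∀ x ∈ P, σ x ∈ P) (b : ℕ) {x y : O}
    (h : p ^ b ∣ x * y) : p ^ b ∣ σ x * y := by
  have h1 := stable_of_prime σ p hp0 hP b (Ideal.span {x, p ^ b})
    (Ideal.subset_span (by simp)) x (Ideal.subset_span (by simp))
  obtain ⟨α, β, h2⟩ := Ideal.mem_span_pair.1 h1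
  rw [← h2, add_mul, mul_assoc, mul_assoc]
  exact dvd_add (h.mul_left α) ((dvd_mul_right _ _).mul_left β)

end dedekind

/-- The Frobenius congruence at all elements follows from that at a generator. -/
theorem frob_of_adjoin {O : Type*} [CommRing O] (σ : O →+* O) {p : ℕ} (hp : p.Prime) (j : ℕ)
    (z : O) (hz : Algebra.adjoin ℤ {z} = ⊤) (P : Ideal O) [P.IsPrime] (hpP : (p : O) ∈ P)
    (hs : σ z - z ^ p ^ j ∈ P) (x : O) : σ x - x ^ p ^ j ∈ P := by
  have hfact : Fact p.Prime := ⟨hp⟩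
  have hch : CharP (O ⧸ P) p := by
    rw [CharP.charP_iff_prime_eq_zero hp]
    have h := Ideal.Quotient.eq_zero_iff_mem.2 hpP
    simpa using h
  let f1 : O →+* O ⧸ P := (Ideal.Quotient.mk P).comp σ
  let f2 : O →+* O ⧸ P := (iterateFrobenius (O ⧸ P) p j).comp (Ideal.Quotient.mk P)
  have h : f1.toIntAlgHom = f2.toIntAlgHom := by
    refine AlgHom.ext_of_adjoin_eq_top hz ?_
    rintro _ rfl
    show Ideal.Quotient.mk P (σ _) = iterateFrobenius (O ⧸ P) p j (Ideal.Quotient.mk P _)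
    rw [iterateFrobenius_def, ← map_pow, Ideal.Quotient.eq]
    exact hs
  have h2 : f1 x = f2 x := congrArg (fun g : O →ₐ[ℤ] O ⧸ P => g x) h
  have h3 : Ideal.Quotient.mk P (σ x) = iterateFrobenius (O ⧸ P) p j (Ideal.Quotient.mk P x) := h2
  rw [iterateFrobenius_def, ← map_pow, Ideal.Quotient.eq] at h3
  exact h3

theorem cyclo_aux (v : ℕ) [NeZero v] (K : Type) [Field K] [NumberField K]
    [IsCyclotomicExtension {v} ℚ K] : ∃ z : 𝓞 K, IsPrimitiveRoot z v ∧
      Algebra.adjoin ℤ {z} = ⊤ ∧ (∀ t : (ZMod v)ˣ, ∃ σ : 𝓞 K →+* 𝓞 K,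
        σ z = z ^ (t : ZMod v).val) ∧ ∀ a b : ℤ, (a : 𝓞 K) ∣ (b : 𝓞 K) → a ∣ b := by
  have hζ := IsCyclotomicExtension.zeta_spec v ℚ K
  refine ⟨hζ.toInteger, hζ.toInteger_isPrimitiveRoot,
    IsCyclotomicExtension.Rat.adjoin_singleton_eq_top hζ, ?_, ?_⟩
  · intro t
    have hirr : Irreducible (Polynomial.cyclotomic v ℚ) :=
      Polynomial.cyclotomic.irreducible_rat (NeZero.pos v)
    have hμ : IsPrimitiveRoot (IsCyclotomicExtension.zeta v ℚ K ^ (t : ZMod v).val) v :=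
      hζ.pow_of_coprime _ (ZMod.val_coe_unit_coprime t)
    refine ⟨RingOfIntegers.mapRingHom
      (IsCyclotomicExtension.fromZetaAut hμ hirr : K ≃ₐ[ℚ] K).toRingEquiv.toRingHom, ?_⟩
    apply RingOfIntegers.ext
    exact IsCyclotomicExtension.fromZetaAut_spec hμ hirr
  · rintro a b ⟨c, hc⟩
    by_cases ha : a = 0
    · subst ha
      rw [Int.cast_zero, zero_mul] at hc
      have : b = 0 := by exact_mod_cast hc
      rw [this]
    have ha' : (a : K) ≠ 0 := by exact_mod_cast ha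
    have hc' : (c : K) = algebraMap ℚ K ((b : ℚ) / a) := by
      have h1 : ((b : ℤ) : K) = (a : K) * (c : K) := by
        have := congrArg (algebraMap (𝓞 K) K) hc
        simpa using this
      rw [map_div₀, map_intCast, map_intCast, h1, mul_div_cancel_left₀ _ ha']
    have h2 : IsIntegral ℤ ((b : ℚ) / a) := by
      have h3 : IsIntegral ℤ (algebraMap ℚ K ((b : ℚ) / a)) := by
        rw [← hc']
        exact c.2
      exact (isIntegral_algebraMap_iff (algebraMap ℚ K).injective).1 h3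
    obtain ⟨d, hd⟩ := IsIntegrallyClosed.isIntegral_iff.1 h2
    refine ⟨d, ?_⟩
    have ha' : (a : ℚ) ≠ 0 := by exact_mod_cast ha
    have h4 : (d : ℚ) = (b : ℚ) / a := by simpa using hd
    rw [eq_div_iff ha'] at h4
    have h5 : (d * a : ℤ) = b := by exact_mod_cast h4
    rw [← h5, mul_comm]

/-- The cyclotomic ring of integers with a primitive root, and the Galois endomorphisms. -/
theorem exists_cyclotomic (v : ℕ) [NeZero v] : ∃ (O : Type) (_ : CommRing O)
    (_ : IsDedekindDomain O) (z : O), CharZero O ∧ IsPrimitiveRoot z v ∧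
      Algebra.adjoin ℤ {z} = ⊤ ∧ (∀ t : (ZMod v)ˣ, ∃ σ : O →+* O, σ z = z ^ (t : ZMod v).val) ∧
      ∀ a b : ℤ, (a : O) ∣ (b : O) → a ∣ b := by
  have hc : IsCyclotomicExtension {v} ℚ (CyclotomicField v ℚ) :=
    CyclotomicField.isCyclotomicExtension v ℚ
  have : NumberField (CyclotomicField v ℚ) :=
    IsCyclotomicExtension.numberField {v} ℚ (CyclotomicField v ℚ)
  obtain ⟨z, h⟩ := cyclo_aux v (CyclotomicField v ℚ)
  exact ⟨𝓞 (CyclotomicField v ℚ), inferInstance, inferInstance, z, inferInstance, h⟩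

end Pool.Agent.H58.Mult
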