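import Pool.Agent.H58.Mult.Comb
import Pool.Agent.H58.Mult.Frob

/-! # Divisibility of the reduced counting function (MP_3e22f2_co) -/

set_option autoImplicit false

namespace Pool.Agent.H58.Mult

open Finset

theorem pow_eq_pow_of_modEq {M : Type*} [Monoid M] {y : M} {w s r : ℕ} (hy : y ^ w = 1)
    (h : s ≡ r [MOD w]) : y ^ s = y ^ r := by
  have key : ∀ n : ℕ, y ^ n = y ^ (n % w) := by
    intro n
    conv_lhs => rw [← Nat.mod_add_div n w, pow_add, pow_mul, hy, one_pow, mul_one]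
  rw [key s, key r, h]

theorem pow_eq_one_of_charP {Q : Type*} [CommRing Q] [IsDomain Q] {p : ℕ} (hp : p.Prime)
    (hch : (p : Q) = 0) {y : Q} {a w : ℕ} (h : y ^ (p ^ a * w) = 1) : y ^ w = 1 := by
  have hfact : Fact p.Prime := ⟨hp⟩
  have : CharP Q p := by
    rw [CharP.charP_iff_prime_eq_zero hp]
    exact hch
  have h1 : (y ^ w - 1) ^ p ^ a = 0 := by
    rw [sub_pow_char_pow, one_pow, ← pow_mul, mul_comm w, h, sub_self]
  exact sub_eq_zero.1 (eq_zero_of_pow_eq_zero h1)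

theorem div_main {v : ℕ} [NeZero v] {D : Finset (ZMod v)} {l : ℤ} (hD : IsDS D l) {p : ℕ}
    (hp : p.Prime) {a w : ℕ} (hv : v = p ^ a * w) (t : (ZMod v)ˣ) {j : ℕ}
    (ht : (t : ZMod v).val ≡ p ^ j [MOD w]) {b : ℕ} (hb : (p : ℤ) ^ b ∣ (D.card : ℤ) - l)
    (g : ZMod v) : (p : ℤ) ^ b ∣ (v : ℤ) * E D l t g := by
  obtain ⟨O, _, _, z, hch, hz, hadj, hgal, hdvd⟩ := exists_cyclotomic v
  obtain ⟨σ, hσ⟩ := hgal t
  let ψ : AddChar (ZMod v) O := AddChar.zmodChar v hz.pow_eq_one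
  have hψ : ψ.IsPrimitive := AddChar.zmodChar_primitive_of_primitive_root v hz
  have hψz : ∀ x : ZMod v, ψ x = z ^ x.val := fun x => AddChar.zmodChar_apply hz.pow_eq_one x
  have hσψ : ∀ x : ZMod v, σ (ψ x) = ψ (t * x) := by
    intro x
    rw [hψz, hψz, map_pow, hσ, ← pow_mul]
    refine pow_eq_pow_of_modEq hz.pow_eq_one ?_
    rw [ZMod.val_mul]
    exact (Nat.mod_modEq _ _).symm
  have hσS : ∀ a : ZMod v, σ (S ψ D a) = S ψ D (a * t) := by
    intro a
    unfold S
    rw [map_sum]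
    refine Finset.sum_congr rfl fun x _ => ?_
    rw [hσψ]
    congr 1
    ring
  have hp0 : (p : O) ≠ 0 := by exact_mod_cast hp.ne_zero
  have hP : ∀ P : Ideal O, P.IsPrime → (p : O) ∈ P → ∀ x ∈ P, σ x ∈ P := by
    intro P hPp hpP x hx
    have h1 : σ z - z ^ p ^ j ∈ P := by
      rw [← Ideal.Quotient.eq, hσ, map_pow, map_pow]
      refine pow_eq_pow_of_modEq (w := w) ?_ ht
      have hch' : (p : O ⧸ P) = 0 := by
        have h := Ideal.Quotient.eq_zero_iff_mem.2 hpP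
        simpa using h
      refine pow_eq_one_of_charP hp hch' (a := a) ?_
      rw [← hv, ← map_pow, hz.pow_eq_one, map_one]
    have h2 := frob_of_adjoin σ hp j z hadj P hpP h1 x
    have h3 : x ^ p ^ j ∈ P := P.pow_mem_of_mem hx _ (pow_pos hp.pos _)
    have h4 := P.add_mem h2 h3
    rwa [sub_add_cancel] at h4
  have hb' : (p : O) ^ b ∣ (((D.card : ℤ) - l : ℤ) : O) := by
    have h := (Int.castRingHom O).map_dvd hb
    simpa using h
  have h1 : ∀ a : ZMod v, (p : O) ^ b ∣ ft ψ (E D l t) a := by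
    intro a
    rw [ft_E hψ hD]
    split_ifs with ha
    · exact hb'
    · rw [← hσS]
      refine dvd_twist σ (p : O) hp0 hP b ?_
      rw [S_mul hψ hD, if_neg ha, mul_zero, add_zero]
      exact hb'
  have h2 : (p : O) ^ b ∣ (v : O) * (E D l t g : O) := by
    rw [← ft_inv hψ]
    exact Finset.dvd_sum fun a _ => (h1 a).mul_right _
  apply hdvd
  push_cast
  exact h2

end Pool.Agent.H58.Mult
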