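import Pool.Agent.H58.Mult.Comb

/-! # Complex characters: absolute values and autocorrelations (MP_3e22f2_co) -/

set_option autoImplicit false

namespace Pool.Agent.H58.Mult

open Finset ComplexConjugate

variable {v : ℕ} [NeZero v]

/-- The standard character. -/
noncomputable abbrev χ (v : ℕ) [NeZero v] : AddChar (ZMod v) ℂ := ZMod.stdAddChar

theorem χ_prim : (χ v).IsPrimitive := ZMod.isPrimitive_stdAddChar v

theorem conj_χ (x : ZMod v) : conj (χ v x) = χ v (-x) := by
  rw [AddChar.map_neg_eq_conj]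

/-- Fourier transform of a complex function. -/
noncomputable def cft (g : ZMod v → ℂ) (b : ZMod v) : ℂ := ∑ c, g c * χ v (b * c)

theorem cft_cast (f : ZMod v → ℤ) (b : ZMod v) : cft (fun x => (f x : ℂ)) b = ft (χ v) f b := rfl

theorem conj_cft (g : ZMod v → ℂ) (b : ZMod v) :
    conj (cft g b) = ∑ c, conj (g c) * χ v (-(b * c)) := by
  unfold cft
  rw [map_sum]
  refine Finset.sum_congr rfl fun c _ => ?_
  rw [map_mul, conj_χ]

theorem autocorr {g : ZMod v → ℂ} {M : ℂ} (h : ∀ b, cft g b * conj (cft g b) = M) (d : ZMod v) :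
    ∑ c, g (c + d) * conj (g c) = if d = 0 then M else 0 := by
  have hv : (v : ℂ) ≠ 0 := by exact_mod_cast NeZero.ne v
  have h1 : ∑ b, (cft g b * conj (cft g b)) * χ v (-(b * d)) =
      (v : ℂ) * ∑ c, g (c + d) * conj (g c) := by
    simp_rw [conj_cft]
    unfold cft
    simp_rw [Finset.sum_mul_sum, Finset.sum_mul]
    rw [Finset.sum_comm]
    have h2 : ∀ x : ZMod v, ∑ b : ZMod v, ∑ c : ZMod v,
        g x * χ v (b * x) * (conj (g c) * χ v (-(b * c))) * χ v (-(b * d)) =
        ∑ c : ZMod v, g x * conj (g c) * if x - c - d = 0 then (v : ℂ) else 0 := by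
      intro x
      rw [Finset.sum_comm]
      refine Finset.sum_congr rfl fun c _ => ?_
      rw [← sum_ψ χ_prim (x - c - d), Finset.mul_sum]
      refine Finset.sum_congr rfl fun b _ => ?_
      have h3 : χ v ((x - c - d) * b) = χ v (b * x) * χ v (-(b * c)) * χ v (-(b * d)) := by
        rw [← AddChar.map_add_eq_mul, ← AddChar.map_add_eq_mul]
        congr 1
        ring
      rw [h3]
      ring
    simp_rw [h2]
    rw [Finset.sum_comm, Finset.mul_sum]
    refine Finset.sum_congr rfl fun c _ => ?_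
    rw [Finset.sum_eq_single (c + d)]
    · rw [if_pos (by ring)]
      ring
    · intro x _ hx
      rw [if_neg, mul_zero]
      intro h
      apply hx
      have : x = x - c - d + (c + d) := by ring
      rw [this, h, zero_add]
    · exact fun h => absurd (Finset.mem_univ _) h
  simp_rw [h] at h1
  rw [← Finset.mul_sum] at h1
  have h4 : ∑ b : ZMod v, χ v (-(b * d)) = if d = 0 then (v : ℂ) else 0 := by
    have h5 := sum_ψ (ψ := χ v) χ_prim (-d)
    simp only [neg_eq_zero] at h5
    rw [← h5]
    refine Finset.sum_congr rfl fun b _ => ?_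
    congr 1
    ring
  rw [h4] at h1
  have h6 : (v : ℂ) * ∑ c, g (c + d) * conj (g c) = (v : ℂ) * if d = 0 then M else 0 := by
    rw [← h1]
    split_ifs <;> ring
  exact mul_left_cancel₀ hv h6

/-- Parseval. -/
theorem parseval (g : ZMod v → ℂ) :
    ∑ b, cft g b * conj (cft g b) = (v : ℂ) * ∑ c, g c * conj (g c) := by
  simp_rw [conj_cft]
  unfold cft
  simp_rw [Finset.sum_mul_sum]
  rw [Finset.sum_comm, Finset.mul_sum]
  refine Finset.sum_congr rfl fun x _ => ?_
  rw [Finset.sum_comm]
  rw [Finset.sum_eq_single x]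
  · have h : ∀ b : ZMod v, g x * χ v (b * x) * (conj (g x) * χ v (-(b * x))) = g x * conj (g x) := by
      intro b
      have h3 : χ v (b * x) * χ v (-(b * x)) = 1 := by
        rw [← AddChar.map_add_eq_mul, add_neg_cancel, AddChar.map_zero_eq_one]
      linear_combination (g x * conj (g x)) * h3
    simp_rw [h]
    rw [Finset.sum_const, Finset.card_univ, ZMod.card, nsmul_eq_mul]
  · intro c _ hc
    have h : ∀ b : ZMod v, g x * χ v (b * x) * (conj (g c) * χ v (-(b * c))) =
        g x * conj (g c) * χ v ((x - c) * b) := by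
      intro b
      have h3 : χ v ((x - c) * b) = χ v (b * x) * χ v (-(b * c)) := by
        rw [← AddChar.map_add_eq_mul]
        congr 1
        ring
      rw [h3]
      ring
    simp_rw [h]
    rw [← Finset.mul_sum, sum_ψ χ_prim, if_neg (sub_ne_zero.2 (Ne.symm hc)), mul_zero]
  · exact fun h => absurd (Finset.mem_univ _) h

variable {D : Finset (ZMod v)} {l : ℤ}

theorem conj_S (D : Finset (ZMod v)) (a : ZMod v) : conj (S (χ v) D a) = S (χ v) D (-a) := by
  unfold S
  rw [map_sum]
  refine Finset.sum_congr rfl fun x _ => ?_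
  rw [conj_χ]
  congr 1
  ring

theorem norm_ft_E (hD : IsDS D l) (t : (ZMod v)ˣ) (a : ZMod v) :
    ft (χ v) (E D l t) a * conj (ft (χ v) (E D l t) a) = (((D.card : ℤ) - l : ℤ) : ℂ) ^ 2 := by
  rw [ft_E χ_prim hD]
  split_ifs with ha
  · rw [map_intCast, sq]
  · rw [map_mul, conj_S, conj_S, neg_neg]
    have h1 := S_mul (ψ := χ v) χ_prim hD a
    have h2 := S_mul (ψ := χ v) χ_prim hD (a * t)
    have hat : a * (t : ZMod v) ≠ 0 := fun h => ha (by
      have := congrArg (fun x => x * ((t⁻¹ : (ZMod v)ˣ) : ZMod v)) h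
      simpa [mul_assoc] using this)
    rw [if_neg ha, mul_zero, add_zero] at h1
    rw [if_neg hat, mul_zero, add_zero] at h2
    rw [sq]
    nth_rewrite 1 [← h2]
    rw [← h1]
    ring

theorem sum_E (hD : IsDS D l) (t : ZMod v) : ∑ g, E D l t g = (D.card : ℤ) - l := by
  have h := ft_E (ψ := χ v) χ_prim hD t 0
  rw [if_pos rfl] at h
  have h1 : ft (χ v) (E D l t) 0 = ((∑ g, E D l t g : ℤ) : ℂ) := by
    unfold ft
    push_cast
    refine Finset.sum_congr rfl fun g _ => ?_
    rw [zero_mul, AddChar.map_zero_eq_one, mul_one]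
  rw [h1] at h
  exact_mod_cast h

/-- Sum of squares of an integer function all of whose characters have absolute value `M`. -/
theorem sum_sq {f : ZMod v → ℤ} {M : ℤ} (h : ∀ a, ft (χ v) f a * conj (ft (χ v) f a) = (M : ℂ) ^ 2) :
    ∑ g, f g ^ 2 = M ^ 2 := by
  have h1 := autocorr (g := fun x => (f x : ℂ)) (M := (M : ℂ) ^ 2)
    (fun b => by rw [cft_cast]; exact h b) 0
  rw [if_pos rfl] at h1
  have h2 : ((∑ g, f g ^ 2 : ℤ) : ℂ) = ((M ^ 2 : ℤ) : ℂ) := by
    push_cast
    rw [← h1]
    refine Finset.sum_congr rfl fun g _ => ?_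
    rw [add_zero, map_intCast, sq]
  exact_mod_cast h2

end Pool.Agent.H58.Mult
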