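import Pool.Agent.H58.Mult.Div
import Pool.Agent.H58.Mult.Norm

/-! # Nonnegative reduced counting functions give multipliers (MP_3e22f2_co) -/

set_option autoImplicit false

namespace Pool.Agent.H58.Mult

open Finset

variable {v : ℕ} [NeZero v] {D : Finset (ZMod v)} {l : ℤ}

omit [NeZero v] in
theorem inner_sum (D : Finset (ZMod v)) (t g x : ZMod v) :
    (∑ y ∈ D, if t * x - y = g then (1 : ℤ) else 0) = if t * x - g ∈ D then 1 else 0 := by
  by_cases h : t * x - g ∈ D
  · rw [if_pos h, Finset.sum_eq_single (t * x - g)]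
    · rw [if_pos (by ring)]
    · intro y _ hy
      rw [if_neg]
      intro h2
      apply hy
      rw [← h2]
      ring
    · exact fun h2 => absurd h h2
  · rw [if_neg h]
    refine Finset.sum_eq_zero fun y hy => ?_
    rw [if_neg]
    intro h2
    apply h
    rw [← h2]
    have : t * x - (t * x - y) = y := by ring
    rw [this]
    exact hy

omit [NeZero v] in
theorem cnt_eq (D : Finset (ZMod v)) (t g : ZMod v) :
    cnt D t g = ((D.filter fun x => t * x - g ∈ D).card : ℤ) := by
  unfold cnt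
  simp_rw [inner_sum]
  rw [Finset.card_filter]
  push_cast
  rfl

theorem mult_of_pos (hD : IsDS D l) (hn : 0 < (D.card : ℤ) - l) (t : (ZMod v)ˣ)
    (hE : ∀ g, 0 ≤ E D l t g) :
    ∃ s : ZMod v, D.image (fun x => (t : ZMod v) * x) = D.image (fun x => x + s) := by
  classical
  set n : ℤ := (D.card : ℤ) - l with hnd
  have h1 := sum_E hD (t : ZMod v)
  have h2 := sum_sq (f := E D l t) (M := n) (fun a => norm_ft_E hD t a)
  have h3 : ∃ g, n ≤ E D l t g := by
    by_contra hcon
    push Not at hcon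
    have h4 : ∑ g, E D l t g ^ 2 ≤ ∑ g, (n - 1) * E D l t g := by
      refine Finset.sum_le_sum fun g _ => ?_
      rw [sq]
      exact mul_le_mul_of_nonneg_right (by have := hcon g; omega) (hE g)
    rw [← Finset.mul_sum, h1, h2] at h4
    nlinarith
  obtain ⟨g, hg⟩ := h3
  have h5 : (D.card : ℤ) ≤ cnt D t g := by
    unfold E at hg
    omega
  rw [cnt_eq] at h5
  have h6 : (D.filter fun x => (t : ZMod v) * x - g ∈ D) = D := by
    refine Finset.eq_of_subset_of_card_le (Finset.filter_subset _ _) ?_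
    exact_mod_cast h5
  refine ⟨g, ?_⟩
  refine Finset.eq_of_subset_of_card_le ?_ ?_
  · intro y hy
    obtain ⟨x, hx, rfl⟩ := Finset.mem_image.1 hy
    rw [← h6] at hx
    exact Finset.mem_image.2 ⟨_, (Finset.mem_filter.1 hx).2, by ring⟩
  · rw [Finset.card_image_of_injective _ (add_left_injective g),
      Finset.card_image_of_injective]
    intro x y hxy
    have := congrArg (fun z => ((t⁻¹ : (ZMod v)ˣ) : ZMod v) * z) hxy
    simpa [← mul_assoc] using this

/-- **Multiplier theorem** (allowing `p ∣ v`): if `p ^ b` divides `k - l`, `v = p ^ a w` with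
`p ∤ w` and `p ^ b > l p ^ a`, then every `t` congruent to a power of `p` modulo `w` is a
multiplier. -/
theorem multiplier_of_large (hD : IsDS D l) (hl : 0 ≤ l) (hn : 0 < (D.card : ℤ) - l) {p : ℕ}
    (hp : p.Prime) {a w : ℕ} (hv : v = p ^ a * w) (hpw : ¬ p ∣ w) (t : (ZMod v)ˣ) {j : ℕ}
    (ht : (t : ZMod v).val ≡ p ^ j [MOD w]) {b : ℕ} (hab : a ≤ b)
    (hb : (p : ℤ) ^ b ∣ (D.card : ℤ) - l) (hlarge : l < (p : ℤ) ^ (b - a)) :
    ∃ s : ZMod v, D.image (fun x => (t : ZMod v) * x) = D.image (fun x => x + s) := by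
  refine mult_of_pos hD hn t fun g => ?_
  have h1 := div_main hD hp hv t ht hb g
  have h2 : (p : ℤ) ^ (b - a) ∣ (w : ℤ) * E D l t g := by
    have h3 : (p : ℤ) ^ b = (p : ℤ) ^ a * (p : ℤ) ^ (b - a) := by
      rw [← pow_add, Nat.add_sub_cancel' hab]
    have h4 : (v : ℤ) = (p : ℤ) ^ a * (w : ℤ) := by
      rw [hv]
      push_cast
      ring
    rw [h3, h4, mul_assoc] at h1
    exact (mul_dvd_mul_iff_left (pow_ne_zero a (by exact_mod_cast hp.ne_zero))).1 h1
  have h5 : IsCoprime ((p : ℤ) ^ (b - a)) (w : ℤ) := by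
    refine IsCoprime.pow_left ?_
    rw [Nat.isCoprime_iff_coprime]
    exact (Nat.Prime.coprime_iff_not_dvd hp).2 hpw
  obtain ⟨c, hc⟩ := h5.dvd_of_dvd_mul_left h2
  have h6 : 0 ≤ cnt D t g := cnt_nonneg D t g
  have h7 : -l ≤ E D l t g := by
    unfold E
    omega
  rw [hc] at h7 ⊢
  have hpos : 0 < (p : ℤ) ^ (b - a) := pow_pos (by exact_mod_cast hp.pos) _
  by_contra hneg
  push Not at hneg
  have hc0 : c < 0 := by
    by_contra h
    push Not at h
    exact absurd hneg (not_lt.2 (mul_nonneg hpos.le h))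
  nlinarith

end Pool.Agent.H58.Mult
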