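import Pool.Agent.H58.Mult.Rect
import Pool.Agent.H58.Mult.Div
import Pool.Agent.H58.Mult.Pos

/-! # Multipliers from pigeonhole (MP_3e22f2_co) -/

set_option autoImplicit false

namespace Pool.Agent.H58.Mult

open Finset
open scoped ComplexConjugate

variable {v : ℕ} [NeZero v] {D : Finset (ZMod v)} {l : ℤ}

omit [NeZero v] in
theorem sum_cnt (hD : IsDS D l) (h0 : cnt D 1 0 = (D.card : ℤ)) (t g : ZMod v) :
    ∑ d ∈ D, cnt D t (g - d) =
      l * D.card + ((D.card : ℤ) - l) * ((D.filter fun x => t * x = g).card : ℤ) := by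
  have h1 : ∑ d ∈ D, cnt D t (g - d) = ∑ x ∈ D, cnt D 1 (g - t * x) := by
    unfold cnt
    rw [Finset.sum_comm]
    refine Finset.sum_congr rfl fun x _ => ?_
    refine Finset.sum_congr rfl fun d _ => ?_
    refine Finset.sum_congr rfl fun y _ => ?_
    by_cases h : t * x - y = g - d
    · rw [if_pos h, if_pos]
      rw [one_mul]
      have : d - y - (g - t * x) = (t * x - y) - (g - d) := by ring
      rw [← sub_eq_zero, this, h, sub_self]
    · rw [if_neg h, if_neg]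
      rw [one_mul]
      intro h2
      apply h
      have : (t * x - y) - (g - d) = d - y - (g - t * x) := by ring
      rw [← sub_eq_zero, this, h2, sub_self]
  rw [h1]
  have h2 : ∀ x ∈ D, cnt D 1 (g - t * x) = l + ((D.card : ℤ) - l) * if t * x = g then 1 else 0 := by
    intro x _
    by_cases h : t * x = g
    · rw [if_pos h, h, sub_self, h0]
      ring
    · rw [if_neg h, mul_zero, add_zero]
      exact hD _ fun h3 => h (sub_eq_zero.1 h3).symm
  rw [Finset.sum_congr rfl h2, Finset.sum_add_distrib, Finset.sum_const, ← Finset.mul_sum,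
    Finset.card_filter]
  push_cast
  rw [nsmul_eq_mul]
  ring

theorem mult_of_shift (hD : IsDS D l) (hn : 0 < (D.card : ℤ) - l) (t t' : (ZMod v)ˣ)
    (z : ZMod v) (h : ∀ g, cnt D t' g = cnt D t (g + z)) :
    ∃ s : ZMod v, D.image (fun x => ((t⁻¹ * t' : (ZMod v)ˣ) : ZMod v) * x) =
      D.image (fun x => x + s) := by
  classical
  have hcard : ∀ g, (D.filter fun x => (t' : ZMod v) * x = g).card =
      (D.filter fun x => (t : ZMod v) * x = g + z).card := by
    intro g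
    have h1 := sum_cnt hD (cnt_one_zero D) (t' : ZMod v) g
    have h2 := sum_cnt hD (cnt_one_zero D) (t : ZMod v) (g + z)
    have h3 : ∑ d ∈ D, cnt D t' (g - d) = ∑ d ∈ D, cnt D t (g + z - d) := by
      refine Finset.sum_congr rfl fun d _ => ?_
      rw [h]
      congr 1
      ring
    rw [h1, h2] at h3
    have h4 := add_left_cancel h3
    have h5 := mul_left_cancel₀ hn.ne' h4
    exact_mod_cast h5
  refine ⟨-((t⁻¹ : (ZMod v)ˣ) : ZMod v) * z, ?_⟩
  have hsub : D.image (fun x => ((t⁻¹ * t' : (ZMod v)ˣ) : ZMod v) * x) ⊆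
      D.image (fun x => x + -((t⁻¹ : (ZMod v)ˣ) : ZMod v) * z) := by
    intro y hy
    obtain ⟨x, hx, rfl⟩ := Finset.mem_image.1 hy
    have h1 : 0 < (D.filter fun u => (t' : ZMod v) * u = t' * x).card :=
      Finset.card_pos.2 ⟨x, Finset.mem_filter.2 ⟨hx, rfl⟩⟩
    rw [hcard] at h1
    obtain ⟨u, hu⟩ := Finset.card_pos.1 h1
    rw [Finset.mem_filter] at hu
    refine Finset.mem_image.2 ⟨u, hu.1, ?_⟩
    have h2 : u = ((t⁻¹ : (ZMod v)ˣ) : ZMod v) * (t' * x + z) := by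
      rw [← hu.2, ← mul_assoc, Units.inv_mul, one_mul]
    rw [h2]
    push_cast
    ring
  refine Finset.eq_of_subset_of_card_le hsub ?_
  rw [Finset.card_image_of_injective _ (add_left_injective _), Finset.card_image_of_injective]
  intro x y hxy
  have := congrArg (fun z => (((t⁻¹ * t')⁻¹ : (ZMod v)ˣ) : ZMod v) * z) hxy
  simpa only [← mul_assoc, Units.inv_mul, one_mul] using this

theorem div_all (hD : IsDS D l) {n1 : ℕ} (hn1 : (n1 : ℤ) ∣ (D.card : ℤ) - l)
    (hcop : Nat.Coprime n1 v) (t : (ZMod v)ˣ)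
    (ht : ∀ p : ℕ, p.Prime → p ∣ n1 → ∃ j : ℕ, (t : ZMod v) = (p : ZMod v) ^ j) (g : ZMod v) :
    (n1 : ℤ) ∣ E D l t g := by
  rw [Int.natCast_dvd, Nat.dvd_iff_prime_pow_dvd_dvd]
  intro p k hp hk
  rcases Nat.eq_zero_or_pos k with rfl | hkpos
  · simp
  have hpn : p ∣ n1 := (dvd_pow_self p hkpos.ne').trans hk
  obtain ⟨j, hj⟩ := ht p hp hpn
  have hmod : (t : ZMod v).val ≡ p ^ j [MOD v] := by
    rw [← ZMod.natCast_eq_natCast_iff, ZMod.natCast_zmod_val, hj]
    push_cast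
    rfl
  have hb : (p : ℤ) ^ k ∣ (D.card : ℤ) - l := by
    refine dvd_trans ?_ hn1
    exact_mod_cast hk
  have h1 := div_main hD hp (a := 0) (w := v) (by simp) t hmod hb g
  have hpv : IsCoprime ((p : ℤ) ^ k) (v : ℤ) := by
    refine IsCoprime.pow_left ?_
    rw [Nat.isCoprime_iff_coprime]
    exact Nat.Coprime.coprime_dvd_left hpn hcop
  have h2 := hpv.dvd_of_dvd_mul_left h1
  rw [← Int.natCast_dvd]
  exact_mod_cast h2

/-- The quotient function has Fourier transform of absolute value `m`. -/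
theorem norm_quot (hD : IsDS D l) {m n1 : ℕ} (hn1 : 0 < n1)
    (hn : (D.card : ℤ) - l = m * n1) (t : (ZMod v)ˣ) {F : ZMod v → ℤ}
    (hF : ∀ g, E D l t g = n1 * F g) (a : ZMod v) :
    ft (χ v) F a * conj (ft (χ v) F a) = (((m : ℤ) : ℤ) : ℂ) ^ 2 := by
  have h1 : ft (χ v) (E D l t) a = (n1 : ℂ) * ft (χ v) F a := by
    unfold ft
    rw [Finset.mul_sum]
    refine Finset.sum_congr rfl fun g _ => ?_
    rw [hF]
    push_cast
    ring
  have h2 := norm_ft_E hD t a
  rw [h1, hn, map_mul, map_natCast] at h2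
  have hn1' : (n1 : ℂ) ≠ 0 := by exact_mod_cast hn1.ne'
  have h3 : ((n1 : ℂ) ^ 2) * (ft (χ v) F a * conj (ft (χ v) F a)) =
      (n1 : ℂ) ^ 2 * (((m : ℤ) : ℤ) : ℂ) ^ 2 := by
    push_cast at h2 ⊢
    linear_combination h2
  exact mul_left_cancel₀ (pow_ne_zero 2 hn1') h3

/-- Multiples of `q` vanish exactly at the multiples of `v / gcd q v`. -/
theorem ker_mul (q : ℕ) (hq : 0 < q) (y : ZMod v) (hy : (q : ZMod v) * y = 0) :
    ∃ i : ℕ, i < Nat.gcd q v ∧ y = ((i * (v / Nat.gcd q v) : ℕ) : ZMod v) := by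
  have hv : 0 < v := Nat.pos_of_ne_zero (NeZero.ne v)
  have hg : 0 < Nat.gcd q v := Nat.gcd_pos_of_pos_left _ hq
  have h1 : v ∣ q * y.val := by
    rw [← ZMod.natCast_eq_zero_iff]
    push_cast
    rw [ZMod.natCast_zmod_val, hy]
  have h2 : v / Nat.gcd q v ∣ y.val := by
    have h3 : v / Nat.gcd q v ∣ (q / Nat.gcd q v) * y.val := by
      rw [← Nat.mul_dvd_mul_iff_left hg]
      rw [Nat.mul_div_cancel' (Nat.gcd_dvd_right q v), ← mul_assoc,
        Nat.mul_div_cancel' (Nat.gcd_dvd_left q v)]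
      exact h1
    exact (Nat.Coprime.symm (Nat.coprime_div_gcd_div_gcd hg)).dvd_of_dvd_mul_left h3
  obtain ⟨i, hi⟩ := h2
  have hd : 0 < v / Nat.gcd q v := Nat.div_pos (Nat.le_of_dvd hv (Nat.gcd_dvd_right q v)) hg
  refine ⟨i, ?_, ?_⟩
  · have h4 : (v / Nat.gcd q v) * i < (v / Nat.gcd q v) * Nat.gcd q v := by
      rw [← hi, Nat.div_mul_cancel (Nat.gcd_dvd_right q v)]
      exact ZMod.val_lt y
    exact lt_of_mul_lt_mul_left h4 (Nat.zero_le _)
  · rw [mul_comm, ← hi, ZMod.natCast_zmod_val]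

theorem mul_div_inj (q : ℕ) (hq : 0 < q) (x : ZMod v) :
    Set.InjOn (fun i : ℕ => x + ((i * (v / Nat.gcd q v) : ℕ) : ZMod v))
      (Finset.range (Nat.gcd q v) : Set ℕ) := by
  have hv : 0 < v := Nat.pos_of_ne_zero (NeZero.ne v)
  have hg : 0 < Nat.gcd q v := Nat.gcd_pos_of_pos_left _ hq
  have hd : 0 < v / Nat.gcd q v := Nat.div_pos (Nat.le_of_dvd hv (Nat.gcd_dvd_right q v)) hg
  intro i hi j hj hij
  simp only [Finset.coe_range, Set.mem_Iio] at hi hj
  have h1 := add_left_cancel hij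
  have hlt : ∀ i, i < Nat.gcd q v → i * (v / Nat.gcd q v) < v := by
    intro i hi
    calc i * (v / Nat.gcd q v) < Nat.gcd q v * (v / Nat.gcd q v) := Nat.mul_lt_mul_of_pos_right hi hd
      _ = v := Nat.mul_div_cancel' (Nat.gcd_dvd_right q v)
  have h2 := congrArg ZMod.val h1
  rw [ZMod.val_natCast, ZMod.val_natCast, Nat.mod_eq_of_lt (hlt i hi), Nat.mod_eq_of_lt (hlt j hj)] at h2
  exact Nat.eq_of_mul_eq_mul_right hd h2

/-- A finite set of at most `N` elements as a word of length `N`. -/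
noncomputable def enc {A : Type*} (N : ℕ) (T : Finset A) : Fin N → Option A := fun i => T.toList[i.val]?

theorem enc_inj {A : Type*} {N : ℕ} {T T' : Finset A} (hT : T.card ≤ N) (hT' : T'.card ≤ N)
    (h : enc N T = enc N T') : T = T' := by
  have key : ∀ {T T' : Finset A}, T.card ≤ N → enc N T = enc N T' → T ⊆ T' := by
    intro T T' hT h s hs
    rw [← Finset.mem_toList] at hs ⊢
    obtain ⟨i, hi⟩ := List.mem_iff_getElem?.1 hs
    have hlt : i < N := by
      have := (List.getElem?_eq_some_iff.1 hi).1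
      rw [Finset.length_toList] at this
      omega
    have h1 := congrFun h ⟨i, hlt⟩
    unfold enc at h1
    simp only at h1
    rw [hi] at h1
    exact List.mem_iff_getElem?.2 ⟨i, h1.symm⟩
  exact Finset.Subset.antisymm (key hT h) (key hT' h.symm)

theorem exists_code (hD : IsDS D l) {m n1 : ℕ} (hm : 0 < m) (hn1 : 0 < n1)
    (hn : (D.card : ℤ) - l = m * n1) (hcop : Nat.Coprime (m * n1) v) (t : (ZMod v)ˣ)
    (ht : ∀ p : ℕ, p.Prime → p ∣ n1 → ∃ j : ℕ, (t : ZMod v) = (p : ZMod v) ^ j) :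
    ∃ (F : ZMod v → ℤ) (q : ℕ) (x : ZMod v), (∀ g, E D l t g = n1 * F g) ∧
      (∀ g, -(m : ℤ) ≤ F g ∧ F g ≤ m) ∧ F x ≠ 0 ∧ 1 ≤ q ∧ q ≤ 8 ^ (m ^ 2) ∧
      (∀ T : Finset (ZMod v), (∀ g ∈ T, F g ≠ 0) → T.card ≤ m ^ 2) ∧
      ∀ x y, F x ≠ 0 → F y ≠ 0 → (q : ZMod v) * x = (q : ZMod v) * y := by
  have hd : ∀ g, (n1 : ℤ) ∣ E D l t g := div_all hD ⟨m, by rw [hn]; ring⟩
    (Nat.Coprime.coprime_mul_left hcop) t ht
  choose F hF using hd
  have hft := fun a => norm_quot hD hn1 hn t hF a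
  obtain ⟨q, hq1, hq2, hq⟩ := rect hm (Nat.Coprime.coprime_mul_right hcop) hft
  have hsq := sum_sq hft
  have hb : ∀ g, F g ^ 2 ≤ (m : ℤ) ^ 2 := by
    intro g
    rw [← hsq]
    exact Finset.single_le_sum (f := fun g => F g ^ 2) (fun _ _ => sq_nonneg _) (Finset.mem_univ g)
  have hx : ∃ x, F x ≠ 0 := by
    by_contra hcon
    push Not at hcon
    have h0 : ∑ g, F g ^ 2 = 0 := Finset.sum_eq_zero fun g _ => by rw [hcon g]; ring
    rw [h0] at hsq
    have : (0 : ℤ) < (m : ℤ) ^ 2 := by positivity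
    omega
  obtain ⟨x, hx⟩ := hx
  refine ⟨F, q, x, hF, fun g => abs_le.1 (abs_le_of_sq_le_sq (hb g) (by positivity)), hx, hq1, hq2,
    fun T hT => ?_, hq⟩
  have h1 : (T.card : ℤ) ≤ ∑ g ∈ T, F g ^ 2 := by
    rw [Finset.card_eq_sum_ones]
    push_cast
    refine Finset.sum_le_sum fun g hg => ?_
    have : 0 < F g ^ 2 := by
      have := hT g hg
      positivity
    omega
  have h2 : ∑ g ∈ T, F g ^ 2 ≤ ∑ g, F g ^ 2 :=
    Finset.sum_le_sum_of_subset_of_nonneg (Finset.subset_univ T) fun _ _ _ => sq_nonneg _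
  rw [hsq] at h2
  exact_mod_cast h1.trans h2

/-- The number of codes. -/
def bound (m : ℕ) : ℕ := (8 ^ m ^ 2 + 1) * (8 ^ m ^ 2 * (2 * m + 1) + 1) ^ m ^ 2

/-- **Many numerical candidates force a multiplier.** -/
theorem pigeon (hD : IsDS D l) {m n1 : ℕ} (hm : 0 < m) (hn1 : 0 < n1)
    (hn : (D.card : ℤ) - l = m * n1) (hcop : Nat.Coprime (m * n1) v) (T : Finset (ZMod v)ˣ)
    (hT : ∀ t ∈ T, ∀ p : ℕ, p.Prime → p ∣ n1 → ∃ j : ℕ, (t : ZMod v) = (p : ZMod v) ^ j)
    (hcard : bound m < T.card) :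
    ∃ t ∈ T, ∃ t' ∈ T, t ≠ t' ∧ ∃ z : ZMod v, ∀ g, cnt D t' g = cnt D t (g + z) := by
  classical
  have hcode : ∀ t ∈ T, ∃ (F : ZMod v → ℤ) (q : ℕ) (x : ZMod v), (∀ g, E D l t g = n1 * F g) ∧
      (∀ g, -(m : ℤ) ≤ F g ∧ F g ≤ m) ∧ F x ≠ 0 ∧ 1 ≤ q ∧ q ≤ 8 ^ (m ^ 2) ∧
      (∀ T : Finset (ZMod v), (∀ g ∈ T, F g ≠ 0) → T.card ≤ m ^ 2) ∧
      ∀ x y, F x ≠ 0 → F y ≠ 0 → (q : ZMod v) * x = (q : ZMod v) * y :=
    fun t ht => exists_code hD hm hn1 hn hcop t (hT t ht)
  choose! F q x hF hFb hx hq1 hq2 hsupp hq using hcode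
  unfold bound at hcard
  set Q : ℕ := 8 ^ m ^ 2 with hQ
  let pt : (ZMod v)ˣ → ℕ → ZMod v := fun t i =>
    x t + ((i * (v / Nat.gcd (q t) v) : ℕ) : ZMod v)
  let st : (ZMod v)ˣ → Finset (ℕ × ℤ) := fun t =>
    ((Finset.range (Nat.gcd (q t) v)).filter fun i => F t (pt t i) ≠ 0).image
      fun i => (i, F t (pt t i))
  let code : (ZMod v)ˣ → ℕ × (Fin (m ^ 2) → Option (ℕ × ℤ)) := fun t => (q t, enc (m ^ 2) (st t))
  let R : Finset (ℕ × (Fin (m ^ 2) → Option (ℕ × ℤ))) :=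
    Finset.range (Q + 1) ×ˢ Fintype.piFinset fun _ =>
      Finset.insertNone (Finset.range Q ×ˢ Finset.Icc (-(m : ℤ)) m)
  have hR : R.card = (Q + 1) * (Q * (2 * m + 1) + 1) ^ m ^ 2 := by
    simp only [R]
    rw [Finset.card_product, Finset.card_range, Fintype.card_piFinset]
    simp only [Finset.card_insertNone, Finset.card_product, Finset.card_range, Int.card_Icc,
      Finset.prod_const, Finset.card_univ, Fintype.card_fin]
    congr 4
    omega
  have hgQ : ∀ t ∈ T, Nat.gcd (q t) v ≤ Q := fun t ht =>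
    (Nat.gcd_le_left v (hq1 t ht)).trans (hq2 t ht)
  have hst : ∀ t ∈ T, (st t).card ≤ m ^ 2 := by
    intro t ht
    refine Finset.card_image_le.trans ?_
    have h1 : (((Finset.range (Nat.gcd (q t) v)).filter fun i => F t (pt t i) ≠ 0).image
        (pt t)).card = ((Finset.range (Nat.gcd (q t) v)).filter fun i => F t (pt t i) ≠ 0).card := by
      refine Finset.card_image_of_injOn fun i hi j hj hij => ?_
      exact mul_div_inj (q t) (hq1 t ht) (x t)
        (by simpa using (Finset.mem_filter.1 hi).1) (by simpa using (Finset.mem_filter.1 hj).1) hij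
    rw [← h1]
    refine hsupp t ht _ fun g hg => ?_
    obtain ⟨i, hi, rfl⟩ := Finset.mem_image.1 hg
    exact (Finset.mem_filter.1 hi).2
  have hmaps : Set.MapsTo code (T : Set (ZMod v)ˣ) R := by
    intro t ht
    simp only [R, code, Finset.coe_product, Set.mem_prod, Finset.mem_coe, Finset.mem_range,
      Fintype.mem_piFinset]
    refine ⟨Nat.lt_succ_of_le (hq2 t ht), fun i => ?_⟩
    rw [Finset.mem_insertNone]
    intro a ha
    have h1 : a ∈ st t := by
      rw [← Finset.mem_toList]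
      exact List.mem_iff_getElem?.2 ⟨i.val, ha⟩
    obtain ⟨j, hj, rfl⟩ := Finset.mem_image.1 h1
    rw [Finset.mem_filter, Finset.mem_range] at hj
    rw [Finset.mem_product, Finset.mem_range, Finset.mem_Icc]
    exact ⟨lt_of_lt_of_le hj.1 (hgQ t ht), hFb t ht _⟩
  rw [← hR] at hcard
  obtain ⟨t, ht, t', ht', hne, heq⟩ :=
    Finset.exists_ne_map_eq_of_card_lt_of_maps_to hcard hmaps
  refine ⟨t, ht, t', ht', hne, ?_⟩
  have hqq : q t = q t' := congrArg Prod.fst heq
  have hff : st t = st t' := enc_inj (hst t ht) (hst t' ht') (congrArg Prod.snd heq)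
  have hval : ∀ i, i < Nat.gcd (q t) v → F t (pt t i) = F t' (pt t' i) := by
    have aux : ∀ {u u' : (ZMod v)ˣ} (i : ℕ), i < Nat.gcd (q u) v → st u = st u' →
        F u (pt u i) ≠ 0 → F u (pt u i) = F u' (pt u' i) := by
      intro u u' i hi hs hne
      have h1 : (i, F u (pt u i)) ∈ st u :=
        Finset.mem_image.2 ⟨i, Finset.mem_filter.2 ⟨Finset.mem_range.2 hi, hne⟩, rfl⟩
      rw [hs] at h1
      obtain ⟨j, _, hj⟩ := Finset.mem_image.1 h1
      rw [Prod.mk.injEq] at hj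
      obtain ⟨rfl, hj2⟩ := hj
      exact hj2.symm
    intro i hi
    by_cases h0 : F t (pt t i) = 0
    · by_contra hcon
      have h1 : F t' (pt t' i) ≠ 0 := fun h => hcon (by rw [h0, h])
      exact hcon (aux i (by rw [← hqq]; exact hi) hff.symm h1).symm
    · exact aux i hi hff h0
  have key : ∀ y, F t (x t + y) = F t' (x t' + y) := by
    intro y
    by_cases hy : (q t : ZMod v) * y = 0
    · obtain ⟨i, hi, rfl⟩ := ker_mul (q t) (hq1 t ht) y hy
      have h1 := hval i hi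
      simp only [pt] at h1
      rw [← hqq] at h1
      exact h1
    · have h1 : F t (x t + y) = 0 := by
        by_contra hcon
        have h2 := hq t ht _ _ hcon (hx t ht)
        rw [mul_add] at h2
        exact hy (by simpa using h2)
      have h3 : F t' (x t' + y) = 0 := by
        by_contra hcon
        have h2 := hq t' ht' _ _ hcon (hx t' ht')
        rw [mul_add, ← hqq] at h2
        exact hy (by simpa using h2)
      rw [h1, h3]
  refine ⟨x t - x t', fun g => ?_⟩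
  have h1 := hF t' ht' g
  have h2 := hF t ht (g + (x t - x t'))
  have h3 := key (g - x t')
  rw [add_sub_cancel] at h3
  have h4 : x t + (g - x t') = g + (x t - x t') := by ring
  rw [h4] at h3
  unfold E at h1 h2
  rw [h3] at h2
  omega

/-- **A bounded power of a numerical candidate is a multiplier.** -/
theorem power_mult (hD : IsDS D l) {m n1 : ℕ} (hm : 0 < m) (hn1 : 0 < n1)
    (hn : (D.card : ℤ) - l = m * n1) (hcop : Nat.Coprime (m * n1) v) (t : (ZMod v)ˣ)
    (ht : ∀ p : ℕ, p.Prime → p ∣ n1 → ∃ j : ℕ, (t : ZMod v) = (p : ZMod v) ^ j) :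
    ∃ i : ℕ, 1 ≤ i ∧ i ≤ bound m ∧ ∃ s : ZMod v,
      D.image (fun x => ((t ^ i : (ZMod v)ˣ) : ZMod v) * x) = D.image (fun x => x + s) := by
  classical
  set C := bound m with hC
  by_cases hord : orderOf t ≤ C
  · refine ⟨orderOf t, orderOf_pos t, hord, 0, ?_⟩
    rw [pow_orderOf_eq_one]
    simp
  push Not at hord
  have hinj : Set.InjOn (fun j : ℕ => t ^ j) (Finset.range (C + 1) : Set ℕ) := by
    intro a ha b hb hab
    simp only [Finset.coe_range, Set.mem_Iio] at ha hb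
    exact pow_injOn_Iio_orderOf (Set.mem_Iio.2 (by omega)) (Set.mem_Iio.2 (by omega)) hab
  have hpos : 0 < (D.card : ℤ) - l := by
    rw [hn]
    positivity
  obtain ⟨u, hu, u', hu', hne, z, hz⟩ := pigeon hD hm hn1 hn hcop
    ((Finset.range (C + 1)).image fun j : ℕ => t ^ j) (by
      intro u hu p hp hpn
      obtain ⟨j, _, rfl⟩ := Finset.mem_image.1 hu
      obtain ⟨i, hi⟩ := ht p hp hpn
      exact ⟨i * j, by push_cast; rw [hi, pow_mul]⟩) (by
      rw [Finset.card_image_of_injOn hinj, Finset.card_range]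
      exact Nat.lt_succ_self _)
  obtain ⟨i, hi, rfl⟩ := Finset.mem_image.1 hu
  obtain ⟨j, hj, rfl⟩ := Finset.mem_image.1 hu'
  rw [Finset.mem_range] at hi hj
  have hij : i ≠ j := fun h => hne (by rw [h])
  rcases lt_or_gt_of_ne hij with h | h
  · obtain ⟨s, hs⟩ := mult_of_shift hD hpos (t ^ i) (t ^ j) z hz
    refine ⟨j - i, by omega, by omega, s, ?_⟩
    have e : t ^ (j - i) = (t ^ i)⁻¹ * t ^ j := by
      rw [eq_inv_mul_iff_mul_eq, ← pow_add]
      congr 1
      omega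
    rw [e]
    exact hs
  · obtain ⟨s, hs⟩ := mult_of_shift hD hpos (t ^ j) (t ^ i) (-z) (fun g => by
      rw [hz, neg_add_cancel_right])
    refine ⟨i - j, by omega, by omega, s, ?_⟩
    have e : t ^ (i - j) = (t ^ j)⁻¹ * t ^ i := by
      rw [eq_inv_mul_iff_mul_eq, ← pow_add]
      congr 1
      omega
    rw [e]
    exact hs

end Pool.Agent.H58.Mult
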