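import Mathlib

/-! # Cyclic difference sets: counting functions and characters (MP_3e22f2_co) -/

set_option autoImplicit false

namespace Pool.Agent.H58.Mult

open Finset

variable {v : ℕ} [NeZero v]

/-- The number of pairs `x, y ∈ D` with `t x - y = g`. -/
def cnt (D : Finset (ZMod v)) (t g : ZMod v) : ℤ :=
  ∑ x ∈ D, ∑ y ∈ D, if t * x - y = g then 1 else 0

/-- `D` is a difference set: every nonzero element is a difference exactly `l` times. -/
def IsDS (D : Finset (ZMod v)) (l : ℤ) : Prop := ∀ α : ZMod v, α ≠ 0 → cnt D 1 α = l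

theorem cnt_nonneg (D : Finset (ZMod v)) (t g : ZMod v) : 0 ≤ cnt D t g :=
  Finset.sum_nonneg fun x _ => Finset.sum_nonneg fun y _ => by split_ifs <;> simp

theorem cnt_one_zero (D : Finset (ZMod v)) : cnt D 1 0 = D.card := by
  unfold cnt
  have h : ∀ x ∈ D, (∑ y ∈ D, if 1 * x - y = 0 then (1 : ℤ) else 0) = 1 := by
    intro x hx
    rw [Finset.sum_eq_single x]
    · simp
    · intro y _ hy
      rw [if_neg]
      rw [one_mul, sub_eq_zero]
      exact fun h => hy h.symm
    · exact fun h => absurd hx h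
  rw [Finset.sum_congr rfl h]
  simp

section ring

variable {R : Type*} [CommRing R] [IsDomain R] (ψ : AddChar (ZMod v) R)

/-- Fourier transform. -/
def ft (f : ZMod v → ℤ) (a : ZMod v) : R := ∑ g, (f g : R) * ψ (a * g)

/-- Character sums of `D`. -/
def S (D : Finset (ZMod v)) (a : ZMod v) : R := ∑ x ∈ D, ψ (a * x)

theorem ft_cnt (D : Finset (ZMod v)) (t a : ZMod v) :
    ft ψ (cnt D t) a = S ψ D (a * t) * S ψ D (-a) := by
  unfold ft cnt S
  push_cast
  simp_rw [Finset.sum_mul]
  rw [Finset.sum_comm]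
  refine Finset.sum_congr rfl fun x _ => ?_
  rw [Finset.sum_comm, Finset.mul_sum]
  refine Finset.sum_congr rfl fun y _ => ?_
  rw [Finset.sum_eq_single (t * x - y)]
  · rw [if_pos rfl, one_mul, ← AddChar.map_add_eq_mul]
    congr 1
    ring
  · intro g _ hg
    rw [if_neg (fun h => hg h.symm), zero_mul]
  · exact fun h => absurd (Finset.mem_univ _) h

variable {ψ}

theorem sum_ψ (hψ : ψ.IsPrimitive) (a : ZMod v) :
    ∑ g, ψ (a * g) = if a = 0 then (v : R) else 0 := by
  have h := AddChar.sum_mulShift a hψ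
  rw [ZMod.card] at h
  simp_rw [mul_comm a]
  rw [h]
  push_cast
  rfl

theorem ft_inv (hψ : ψ.IsPrimitive) (f : ZMod v → ℤ) (g : ZMod v) :
    ∑ a, ft ψ f a * ψ (-(a * g)) = (v : R) * (f g : R) := by
  unfold ft
  simp_rw [Finset.sum_mul]
  rw [Finset.sum_comm]
  have h : ∀ x : ZMod v, ∑ a, (f x : R) * ψ (a * x) * ψ (-(a * g)) =
      if x = g then (v : R) * (f g : R) else 0 := by
    intro x
    have h1 : ∀ a : ZMod v, (f x : R) * ψ (a * x) * ψ (-(a * g)) = (f x : R) * ψ ((x - g) * a) := by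
      intro a
      rw [mul_assoc, ← AddChar.map_add_eq_mul]
      congr 2
      ring
    simp_rw [h1]
    rw [← Finset.mul_sum, sum_ψ hψ]
    by_cases hx : x = g
    · subst hx
      rw [sub_self, if_pos rfl, if_pos rfl, mul_comm]
    · rw [if_neg (sub_ne_zero.2 hx), if_neg hx, mul_zero]
  simp_rw [h]
  rw [Finset.sum_ite_eq' Finset.univ g]
  simp

variable {D : Finset (ZMod v)} {l : ℤ}

theorem S_mul (hψ : ψ.IsPrimitive) (hD : IsDS D l) (a : ZMod v) :
    S ψ D a * S ψ D (-a) = ((D.card : ℤ) - l : ℤ) + (l : R) * if a = 0 then (v : R) else 0 := by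
  have h := ft_cnt ψ D 1 a
  rw [mul_one] at h
  rw [← h, ← sum_ψ hψ a]
  unfold ft
  have h1 : ∀ g : ZMod v, ((cnt D 1 g : ℤ) : R) * ψ (a * g) =
      (if g = 0 then (((D.card : ℤ) - l : ℤ) : R) else 0) + (l : R) * ψ (a * g) := by
    intro g
    by_cases hg : g = 0
    · subst hg
      rw [if_pos rfl, mul_zero, AddChar.map_zero_eq_one, cnt_one_zero]
      push_cast
      ring
    · rw [if_neg hg, hD g hg, zero_add]
  simp_rw [h1]
  rw [Finset.sum_add_distrib, Finset.sum_ite_eq' Finset.univ (0 : ZMod v), ← Finset.mul_sum]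
  simp

/-- The reduced counting function. -/
def E (D : Finset (ZMod v)) (l : ℤ) (t g : ZMod v) : ℤ := cnt D t g - l

theorem ft_E (hψ : ψ.IsPrimitive) (hD : IsDS D l) (t a : ZMod v) :
    ft ψ (E D l t) a = if a = 0 then (((D.card : ℤ) - l : ℤ) : R)
      else S ψ D (a * t) * S ψ D (-a) := by
  have h1 : ft ψ (E D l t) a = ft ψ (cnt D t) a - (l : R) * ∑ g, ψ (a * g) := by
    unfold ft E
    rw [Finset.mul_sum, ← Finset.sum_sub_distrib]
    refine Finset.sum_congr rfl fun g _ => ?_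
    push_cast
    ring
  rw [h1, sum_ψ hψ, ft_cnt]
  by_cases ha : a = 0
  · subst ha
    have h2 := S_mul hψ hD 0
    rw [if_pos rfl] at h2
    rw [if_pos rfl, if_pos rfl, zero_mul]
    rw [neg_zero] at h2 ⊢
    rw [h2]
    ring
  · rw [if_neg ha, if_neg ha, mul_zero, sub_zero]

end ring

end Pool.Agent.H58.Mult
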