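import Pool.Agent.H58.Mult.Norm

/-! # Integer functions with all characters of absolute value `m` (MP_3e22f2_co)

If `f : ZMod v → ℤ` has `|f^(a)| = m` for all characters and `m` is prime to `v`, then `q x` is
constant on the support of `f` for some `1 ≤ q ≤ 8 ^ (m ^ 2)`. -/

set_option autoImplicit false

namespace Pool.Agent.H58.Mult

open Finset ComplexConjugate

variable {v : ℕ} [NeZero v]

/-- Simultaneous approximation. -/
theorem dirichlet (T : Finset (ZMod v)) : ∃ q : ℕ, 1 ≤ q ∧ q ≤ 8 ^ T.card ∧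
    ∀ x ∈ T, 8 * |((q : ZMod v) * x).valMinAbs| < v := by
  classical
  have hv : 0 < v := NeZero.pos v
  let F : Fin (8 ^ T.card + 1) → (T → Fin 8) := fun q x =>
    ⟨8 * ((q.val : ZMod v) * x).val / v, by
      rw [Nat.div_lt_iff_lt_mul hv]
      have := ZMod.val_lt ((q.val : ZMod v) * (x : ZMod v))
      omega⟩
  have hcard : Fintype.card (T → Fin 8) < Fintype.card (Fin (8 ^ T.card + 1)) := by
    simp
  have key : ∀ i j : ℕ, i < j → j < 8 ^ T.card + 1 →
      (∀ x ∈ T, 8 * ((i : ZMod v) * x).val / v = 8 * ((j : ZMod v) * x).val / v) →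
      ∃ q : ℕ, 1 ≤ q ∧ q ≤ 8 ^ T.card ∧ ∀ x ∈ T, 8 * |((q : ZMod v) * x).valMinAbs| < v := by
    intro i j hij hj h
    refine ⟨j - i, by omega, by omega, fun x hx => ?_⟩
    have h1 := h x hx
    set A := ((i : ZMod v) * x).val with hA
    set B := ((j : ZMod v) * x).val with hB
    have h2 := Nat.div_add_mod (8 * A) v
    have h3 := Nat.div_add_mod (8 * B) v
    have h4 := Nat.mod_lt (8 * A) hv
    have h5 := Nat.mod_lt (8 * B) hv
    have h6 : 8 * |(B : ℤ) - A| < v := by
      rw [h1] at h2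
      have e2 : (v : ℤ) * ((8 * B / v : ℕ) : ℤ) + ((8 * A % v : ℕ) : ℤ) = 8 * A := by
        exact_mod_cast h2
      have e3 : (v : ℤ) * ((8 * B / v : ℕ) : ℤ) + ((8 * B % v : ℕ) : ℤ) = 8 * B := by
        exact_mod_cast h3
      have e4 : ((8 * A % v : ℕ) : ℤ) < v := by exact_mod_cast h4
      have e5 : ((8 * B % v : ℕ) : ℤ) < v := by exact_mod_cast h5
      rcases abs_cases ((B : ℤ) - A) with ⟨h7, _⟩ | ⟨h7, _⟩ <;> rw [h7] <;> omega
    have h7 : (((j - i : ℕ) : ZMod v) * x) = (((B : ℤ) - A : ℤ) : ZMod v) := by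
      rw [Nat.cast_sub hij.le, sub_mul]
      push_cast
      rw [hA, hB, ZMod.natCast_val, ZMod.natCast_val, ZMod.cast_id, ZMod.cast_id]
    have h8 : (((j - i : ℕ) : ZMod v) * x).valMinAbs = (B : ℤ) - A := by
      rw [ZMod.valMinAbs_spec]
      refine ⟨h7, ?_, ?_⟩
      · rcases abs_cases ((B : ℤ) - A) with ⟨h9, _⟩ | ⟨h9, _⟩ <;> rw [h9] at h6 <;> omega
      · rcases abs_cases ((B : ℤ) - A) with ⟨h9, _⟩ | ⟨h9, _⟩ <;> rw [h9] at h6 <;> omega
    rw [h8]
    exact h6
  obtain ⟨i, j, hij, hF⟩ := Fintype.exists_ne_map_eq_of_card_lt F hcard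
  have hF' : ∀ x ∈ T, 8 * ((i.val : ZMod v) * x).val / v = 8 * ((j.val : ZMod v) * x).val / v :=
    fun x hx => congrArg Fin.val (congrFun hF ⟨x, hx⟩)
  rcases lt_or_gt_of_ne (fun h => hij (Fin.ext h) : i.val ≠ j.val) with h | h
  · exact key _ _ h j.2 hF'
  · exact key _ _ h i.2 fun x hx => (hF' x hx).symm

/-- A function with short support and Fourier transform of constant absolute value is
concentrated in one point. -/
theorem one_point {g : ZMod v → ℂ} {M : ℂ} (hM : M ≠ 0)
    (h : ∀ b, cft g b * conj (cft g b) = M)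
    (hs : ∀ c, g c ≠ 0 → 8 * |c.valMinAbs| < v) :
    ∃ c0, g c0 ≠ 0 ∧ (∀ c, g c ≠ 0 → c = c0) ∧ g c0 * conj (g c0) = M := by
  classical
  have hne : (Finset.univ.filter fun c => g c ≠ 0).Nonempty := by
    by_contra hcon
    rw [Finset.not_nonempty_iff_eq_empty] at hcon
    apply hM
    have h0 : ∀ c, g c = 0 := by
      intro c
      by_contra hc
      have : c ∈ (Finset.univ.filter fun c => g c ≠ 0) := by simp [hc]
      rw [hcon] at this
      exact absurd this (Finset.notMem_empty c)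
    rw [← h 0]
    unfold cft
    simp [h0]
  obtain ⟨c1, hc1, hmax⟩ := Finset.exists_max_image _ (fun c : ZMod v => c.valMinAbs) hne
  obtain ⟨c0, hc0, hmin⟩ := Finset.exists_min_image _ (fun c : ZMod v => c.valMinAbs) hne
  rw [Finset.mem_filter] at hc1 hc0
  have hg1 := hc1.2
  have hg0 := hc0.2
  have hmax' : ∀ c, g c ≠ 0 → c.valMinAbs ≤ c1.valMinAbs := fun c hc => hmax c (by simp [hc])
  have hmin' : ∀ c, g c ≠ 0 → c0.valMinAbs ≤ c.valMinAbs := fun c hc => hmin c (by simp [hc])
  have hsum : ∑ c, g (c + (c1 - c0)) * conj (g c) = g c1 * conj (g c0) := by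
    rw [Finset.sum_eq_single c0]
    · rw [add_sub_cancel]
    · intro c _ hc
      by_contra hcon
      have hA : g (c + (c1 - c0)) ≠ 0 := fun h0 => hcon (by rw [h0, zero_mul])
      have hB : g c ≠ 0 := fun h0 => hcon (by rw [h0, map_zero, mul_zero])
      set c2 := c + (c1 - c0) with hc2
      have e : ((c.valMinAbs + (c1.valMinAbs - c0.valMinAbs) - c2.valMinAbs : ℤ) : ZMod v) = 0 := by
        push_cast
        rw [hc2]
        ring
      rw [ZMod.intCast_zmod_eq_zero_iff_dvd] at e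
      have s0 := abs_lt.1 (show |c0.valMinAbs| < (v : ℤ) by have := hs c0 hg0; have := abs_nonneg c0.valMinAbs; omega)
      have b0 := hs c0 hg0
      have b1 := hs c1 hg1
      have b2 := hs c2 hA
      have b3 := hs c hB
      have m1 := hmax' c2 hA
      have m2 := hmin' c hB
      have z : c.valMinAbs + (c1.valMinAbs - c0.valMinAbs) - c2.valMinAbs = 0 := by
        refine Int.eq_zero_of_abs_lt_dvd e ?_
        rw [abs_lt]
        have a0 := abs_le.1 (le_refl |c0.valMinAbs|)
        have a1 := abs_le.1 (le_refl |c1.valMinAbs|)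
        have a2 := abs_le.1 (le_refl |c2.valMinAbs|)
        have a3 := abs_le.1 (le_refl |c.valMinAbs|)
        constructor <;> omega
      have z2 : c.valMinAbs = c0.valMinAbs := by omega
      apply hc
      rw [← ZMod.coe_valMinAbs c, z2, ZMod.coe_valMinAbs]
    · exact fun h => absurd (Finset.mem_univ _) h
  have h1 := autocorr h (c1 - c0)
  rw [hsum] at h1
  have hprod : g c1 * conj (g c0) ≠ 0 :=
    mul_ne_zero hg1 (by rwa [Ne, map_eq_zero])
  by_cases hd : c1 - c0 = 0
  · rw [if_pos hd] at h1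
    have hcc : c1 = c0 := sub_eq_zero.1 hd
    subst hcc
    refine ⟨c1, hg1, fun c hc => ?_, h1⟩
    have := le_antisymm (hmax' c hc) (hmin' c hc)
    rw [← ZMod.coe_valMinAbs c, this, ZMod.coe_valMinAbs]
  · rw [if_neg hd] at h1
    exact absurd h1 hprod

theorem rect {f : ZMod v → ℤ} {m : ℕ} (hm : 0 < m) (hcop : Nat.Coprime m v)
    (h : ∀ a, ft (χ v) f a * conj (ft (χ v) f a) = (((m : ℤ) : ℤ) : ℂ) ^ 2) :
    ∃ q : ℕ, 1 ≤ q ∧ q ≤ 8 ^ (m ^ 2) ∧
      ∀ x y, f x ≠ 0 → f y ≠ 0 → (q : ZMod v) * x = (q : ZMod v) * y := by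
  classical
  have hsq := sum_sq h
  set T : Finset (ZMod v) := Finset.univ.filter fun x => f x ≠ 0 with hT
  have hTc : T.card ≤ m ^ 2 := by
    have h1 : (T.card : ℤ) ≤ ∑ g, f g ^ 2 := by
      rw [hT, Finset.card_filter]
      push_cast
      refine Finset.sum_le_sum fun g _ => ?_
      split_ifs with hg
      · have : 0 < f g ^ 2 := by positivity
        omega
      · positivity
    rw [hsq] at h1
    exact_mod_cast h1
  obtain ⟨q, hq1, hq2, hq⟩ := dirichlet T
  refine ⟨q, hq1, hq2.trans (Nat.pow_le_pow_right (by norm_num) hTc), ?_⟩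
  have hm0 : (((m : ℤ) : ℤ) : ℂ) ^ 2 ≠ 0 := by
    apply pow_ne_zero
    exact_mod_cast hm.ne'
  let G : ZMod v → ZMod v → ℂ := fun a c => ∑ x, if (q : ZMod v) * x = c then (f x : ℂ) * χ v (a * x) else 0
  have hG1 : ∀ a b, cft (G a) b = ft (χ v) f (a + b * q) := by
    intro a b
    unfold cft ft
    simp only [G]
    simp_rw [Finset.sum_mul]
    rw [Finset.sum_comm]
    refine Finset.sum_congr rfl fun x _ => ?_
    rw [Finset.sum_eq_single ((q : ZMod v) * x)]
    · rw [if_pos rfl, mul_assoc, ← AddChar.map_add_eq_mul]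
      congr 2
      ring
    · intro c _ hc
      rw [if_neg (fun h => hc h.symm), zero_mul]
    · exact fun h => absurd (Finset.mem_univ _) h
  have hG2 : ∀ a, ∃ c0, G a c0 ≠ 0 ∧ (∀ c, G a c ≠ 0 → c = c0) ∧
      G a c0 * conj (G a c0) = (((m : ℤ) : ℤ) : ℂ) ^ 2 := by
    intro a
    refine one_point hm0 (fun b => by rw [hG1]; exact h _) (fun c hc => ?_)
    obtain ⟨x, _, hx⟩ := Finset.exists_ne_zero_of_sum_ne_zero hc
    have hxc : (q : ZMod v) * x = c := by
      by_contra h0
      exact hx (if_neg h0)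
    have hfx : f x ≠ 0 := by
      intro h0
      rw [if_pos hxc, h0] at hx
      simp at hx
    rw [← hxc]
    exact hq x (by rw [hT]; simp [hfx])
  have hG3 : ∀ c, (v : ℤ) * ∑ x, (if (q : ZMod v) * x = c then f x ^ 2 else 0) =
      (m : ℤ) ^ 2 * ((Finset.univ.filter fun a => G a c ≠ 0).card : ℤ) := by
    intro c
    have h1 := parseval (fun x : ZMod v => if (q : ZMod v) * x = c then (f x : ℂ) else 0)
    have h2 : ∀ a, cft (fun x : ZMod v => if (q : ZMod v) * x = c then (f x : ℂ) else 0) a =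
        G a c := by
      intro a
      unfold cft
      simp only [G]
      refine Finset.sum_congr rfl fun x _ => ?_
      split_ifs <;> simp
    simp_rw [h2] at h1
    have h3 : ∀ a, G a c * conj (G a c) =
        if G a c ≠ 0 then (((m : ℤ) : ℤ) : ℂ) ^ 2 else 0 := by
      intro a
      split_ifs with h0
      · obtain ⟨c0, _, hc0, hc1⟩ := hG2 a
        rw [← hc0 c h0] at hc1
        exact hc1
      · rw [not_ne_iff] at h0
        rw [h0, zero_mul]
    simp_rw [h3] at h1
    rw [← Finset.sum_filter, Finset.sum_const, nsmul_eq_mul] at h1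
    have h4 : ∀ x : ZMod v, (if (q : ZMod v) * x = c then (f x : ℂ) else 0) *
        conj (if (q : ZMod v) * x = c then (f x : ℂ) else 0) =
        (((if (q : ZMod v) * x = c then f x ^ 2 else 0 : ℤ)) : ℂ) := by
      intro x
      split_ifs
      · rw [map_intCast]
        push_cast
        ring
      · simp
    simp_rw [h4] at h1
    have h5 : (((v : ℤ) * ∑ x, (if (q : ZMod v) * x = c then f x ^ 2 else 0) : ℤ) : ℂ) =
        (((m : ℤ) ^ 2 * ((Finset.univ.filter fun a => G a c ≠ 0).card : ℤ) : ℤ) : ℂ) := by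
      push_cast
      push_cast at h1
      rw [← h1]
      ring
    exact_mod_cast h5
  have hall : ∀ x, f x ≠ 0 → ∀ a, G a ((q : ZMod v) * x) ≠ 0 := by
    intro x hx
    have h1 := hG3 ((q : ZMod v) * x)
    set N := (Finset.univ.filter fun a => G a ((q : ZMod v) * x) ≠ 0).card with hN
    have h2 : 0 < ∑ y, (if (q : ZMod v) * y = (q : ZMod v) * x then f y ^ 2 else 0) := by
      refine Finset.sum_pos' (fun y _ => by split_ifs <;> positivity) ⟨x, Finset.mem_univ _, ?_⟩
      rw [if_pos rfl]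
      positivity
    have h3 : (v : ℤ) ∣ (m : ℤ) ^ 2 * (N : ℤ) := ⟨_, h1.symm⟩
    have h4 : v ∣ N := by
      have h5 : v ∣ m ^ 2 * N := by exact_mod_cast h3
      exact (Nat.Coprime.pow_left 2 hcop).symm.dvd_of_dvd_mul_left h5
    have hv : 0 < v := NeZero.pos v
    have h6 : 0 < N := by
      rcases Nat.eq_zero_or_pos N with h7 | h7
      · rw [h7] at h1
        have : (0 : ℤ) < (v : ℤ) * ∑ y, (if (q : ZMod v) * y = (q : ZMod v) * x then f y ^ 2 else 0) :=
          mul_pos (by exact_mod_cast hv) h2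
        rw [h1] at this
        simp at this
      · exact h7
    have h8 : v ≤ N := Nat.le_of_dvd h6 h4
    have h9 : (Finset.univ.filter fun a => G a ((q : ZMod v) * x) ≠ 0) = Finset.univ := by
      rw [← Finset.card_eq_iff_eq_univ, ZMod.card]
      refine le_antisymm ?_ h8
      have := Finset.card_le_univ (Finset.univ.filter fun a => G a ((q : ZMod v) * x) ≠ 0)
      rwa [ZMod.card] at this
    intro a
    have : a ∈ (Finset.univ.filter fun a => G a ((q : ZMod v) * x) ≠ 0) := by
      rw [h9]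
      exact Finset.mem_univ a
    exact (Finset.mem_filter.1 this).2
  intro x y hx hy
  obtain ⟨c0, _, hc0, _⟩ := hG2 0
  rw [hc0 _ (hall x hx 0), hc0 _ (hall y hy 0)]

end Pool.Agent.H58.Mult
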